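import Pool.Agent.W707.HM.Stm

/-! Project HM: the support functions in the second case. -/

set_option autoImplicit false

namespace Pool.Agent.W800.HM

open MeasureTheory Set Filter Topology
open Pool.Agent.W707.HM
open Pool.Agent.W360.MQ (RC)

theorem c2 (hEX : S_EX) (hGAM : S_GAM) (hLE : S_LE) (hODE : S_ODE) (hMON : S_MON) (hRC2 : S_RC2)
    (hINN : S_INN) (hSCL : S_SCL) : S_C2 := by
  intro p f adh t0 m0 hSG ht0 hm0 hG
  obtain ⟨fs, tau, hCj⟩ := hEX f adh.cont
  obtain ⟨hp1, hpf, hfsa, htaua, htau0, hfs0, b, hm0b, hall⟩ :=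
    hGAM p f fs tau adh hCj t0 m0 hSG ht0 hm0 hG
  set a : ℝ := -(p / 2 * f (-1)) with ha
  have hab : a < b := lt_of_le_of_lt hm0 hm0b
  have hLEm : ∀ m ∈ Ico a b, LE p fs tau m := by
    intro m hm
    obtain ⟨h1, h2, h3, h4, h5, h6⟩ := hall m hm
    apply hLE p f fs tau hp1 adh.cont adh.hi adh.qt hCj m h1 h3 _ h4
    have := hm.1
    rw [ha] at this
    linarith
  have hDc : ContinuousOn (Dm p fs tau) (Ico a b) := by
    intro m hm
    obtain ⟨h1, h2, h3, h4, h5, h6⟩ := hall m hm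
    apply ContinuousAt.continuousWithinAt
    have h7 : ContinuousAt (fun m => Gm p fs m) m := by
      unfold Gm
      exact (continuousAt_const.mul h5.continuousAt).sub (continuousAt_const.mul continuousAt_id)
    exact h7.div (continuousAt_const.sub h4) (sub_pos.2 h3).ne'
  have hDpos : ∀ m ∈ Ico a b, 0 < Dm p fs tau m := by
    intro m hm
    obtain ⟨h1, h2, h3, h4, h5, h6⟩ := hall m hm
    exact div_pos h1 (sub_pos.2 h3)
  obtain ⟨mu, hmu1, hmu, hmusurj⟩ := hODE a b (p * (p - 1)) (Dm p fs tau) hab hDc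
    (fun m hm => ⟨hDpos m hm, (hall m hm).2.2.2.2.2⟩)
  have hmon := hMON p fs tau a b mu hp1 hab
    (fun m hm => ⟨(hall m hm).1, (hall m hm).2.1, (hall m hm).2.2.1, (hall m hm).2.2.2.1,
      (hall m hm).2.2.2.2.1, hLEm m hm⟩) hmu1 hmu
  set nu : ℝ → ℝ := fun s => -(s ^ (p - 2) * ((p - 1) * mu s + Dm p fs tau (mu s))) with hnu
  set g : ℝ → ℝ := fun s => -(s ^ p * fs (mu s)) with hg
  set h : ℝ → ℝ := fun s => s ^ (p - 1) * mu s with hh
  have hpow1 : ∀ s : ℝ, 1 ≤ s → s ^ (p - 1) = s * s ^ (p - 2) := by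
    intro s hs
    have hs0 : 0 < s := lt_of_lt_of_le one_pos hs
    rw [mul_comm, ← Real.rpow_add_one hs0.ne']
    congr 1
    ring
  have hpow2 : ∀ s : ℝ, 1 ≤ s → s ^ p = s * s ^ (p - 1) := by
    intro s hs
    have hs0 : 0 < s := lt_of_lt_of_le one_pos hs
    rw [mul_comm, ← Real.rpow_add_one hs0.ne']
    congr 1
    ring
  have hhd : ∀ s, 1 ≤ s → HasDerivWithinAt h (-nu s) (Ici 1) s := by
    intro s hs
    have hs0 : 0 < s := lt_of_lt_of_le one_pos hs
    have h1 : HasDerivWithinAt (fun s : ℝ => s ^ (p - 1)) ((p - 1) * s ^ (p - 1 - 1)) (Ici 1) s :=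
      (Real.hasDerivAt_rpow_const (Or.inl hs0.ne')).hasDerivWithinAt
    have h2 : HasDerivWithinAt h _ (Ici 1) s := h1.mul (hmu s hs).2
    refine h2.congr_deriv ?_
    simp only [hnu]
    rw [show p - 1 - 1 = p - 2 by ring, hpow1 s hs]
    field_simp
  have hgd : ∀ s, 1 ≤ s → HasDerivWithinAt g (h s + s * nu s) (Ici 1) s := by
    intro s hs
    have hs0 : 0 < s := lt_of_lt_of_le one_pos hs
    obtain ⟨hm, hd⟩ := hmu s hs
    obtain ⟨k1, k2, k3, k4, k5, k6⟩ := hall (mu s) hm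
    have h1 : HasDerivWithinAt (fun s : ℝ => s ^ p) (p * s ^ (p - 1)) (Ici 1) s :=
      (Real.hasDerivAt_rpow_const (Or.inl hs0.ne')).hasDerivWithinAt
    have h2 : HasDerivWithinAt (fun s => fs (mu s)) (tau (mu s) * (Dm p fs tau (mu s) / s))
        (Ici 1) s := k5.comp_hasDerivWithinAt s hd
    have h3 : HasDerivWithinAt g _ (Ici 1) s := (h1.mul h2).neg
    refine h3.congr_deriv ?_
    have hD : Dm p fs tau (mu s) * (1 - tau (mu s)) = p * fs (mu s) - (p - 2) * mu s := by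
      unfold Dm Gm
      rw [div_mul_cancel₀ _ (sub_pos.2 k3).ne']
    simp only [hnu, hh]
    rw [hpow2 s hs, hpow1 s hs]
    have h4 : s * (s * s ^ (p - 2)) * (tau (mu s) * (Dm p fs tau (mu s) / s))
        = s * s ^ (p - 2) * (tau (mu s) * Dm p fs tau (mu s)) := by
      field_simp
    rw [h4]
    linear_combination (s * s ^ (p - 2)) * hD
  have hDa : Dm p fs tau a = p * (p - 2) * f (-1) / 2 := by
    unfold Dm Gm
    rw [hfsa, htaua, ha]
    ring
  have hnu1 : p / 2 * f (-1) ≤ nu 1 := by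
    apply le_of_eq
    simp only [hnu]
    rw [hmu1, hDa, Real.one_rpow, ha]
    ring
  have hg1 : g 1 = -(p / 2 - 1) * f (-1) := by
    simp only [hg]
    rw [hmu1, hfsa, Real.one_rpow]
    ring
  have hh1 : h 1 = -(p / 2 * f (-1)) := by
    simp only [hh]
    rw [hmu1, Real.one_rpow, ha]
    ring
  have hRC := hRC2 g h nu (-(p / 2 - 1) * f (-1)) (p / 2 * f (-1)) hhd hgd hmon hnu1 hg1 hh1
  set α : ℝ → ℝ := fun s => if s < 1 then -(p / 2 - 1) * f (-1) else g s with hα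
  set β : ℝ → ℝ := fun s => if s < 1 then -(p / 2 * f (-1)) else h s / s with hβ
  have hval : ∀ s v : ℝ, 1 ≤ s → α s + β s * (s * v) = s ^ p * (mu s * (v / s) - fs (mu s)) := by
    intro s v hs
    have hs0 : 0 < s := lt_of_lt_of_le one_pos hs
    simp only [hα, hβ, if_neg (not_lt.2 hs), hg, hh]
    rw [hpow2 s hs]
    field_simp
    ring
  have hbel : Below p f α β := by
    intro s v hs hv
    by_cases hs1 : s < 1
    · simp only [hα, hβ, if_pos hs1]
      exact hINN p f hp1.le adh.qe hpf s v hs hs1 hv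
    · have hs1' : 1 ≤ s := not_lt.1 hs1
      have hs0 : 0 < s := lt_of_lt_of_le one_pos hs1'
      rw [hval s v hs1']
      apply mul_le_mul_of_nonneg_left _ (Real.rpow_nonneg hs p)
      obtain ⟨⟨h1, h2⟩, h3⟩ := hCj (mu s)
      have h4 : v / s ∈ Icc (-1 : ℝ) 1 := by
        rw [abs_le] at hv
        constructor
        · rw [le_div_iff₀ hs0]; linarith
        · rw [div_le_iff₀ hs0]; linarith
      have h5 := h2 _ h4
      rw [h3]
      linarith
  obtain ⟨s0, hs0, hmus0⟩ := hmusurj m0 ⟨hm0, hm0b⟩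
  have hs0p : 0 < s0 := lt_of_lt_of_le one_pos hs0
  have hk : 0 < s0 ^ (-p) := Real.rpow_pos_of_pos hs0p _
  have hkk : s0 ^ (-p) * s0 ^ p = 1 := by
    rw [← Real.rpow_add hs0p, neg_add_cancel, Real.rpow_zero]
  refine ⟨_, _, hSCL α β (s0 ^ (-p)) 1 s0 hRC hk.le (by norm_num) hs0p, ?_, ?_⟩
  · intro s v hs hv
    have h1 := hbel (s0 * s) (s0 * v) (mul_nonneg hs0p.le hs) (by
      rw [abs_mul, abs_of_pos hs0p]
      exact mul_le_mul_of_nonneg_left hv hs0p.le)
    rw [mul_div_mul_left _ _ hs0p.ne', Real.mul_rpow hs0p.le hs] at h1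
    have h2 := mul_le_mul_of_nonneg_left h1 hk.le
    have h3 : s0 ^ (-p) * (s0 ^ p * s ^ p * f (v / s)) = s ^ p * f (v / s) := by
      rw [← mul_assoc, ← mul_assoc, hkk, one_mul]
    rw [h3] at h2
    calc _ = s0 ^ (-p) * (α (s0 * s) + β (s0 * s) * (s0 * s * (s0 * v))) := by ring
      _ ≤ _ := h2
  · have h1 := hval s0 (s0 * t0) hs0
    rw [hmus0, hfs0, mul_div_cancel_left₀ _ hs0p.ne'] at h1
    have h2 : s0 ^ (-p) * (s0 ^ p * (m0 * t0 - (m0 * t0 - f t0))) = f t0 := by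
      rw [← mul_assoc, hkk]
      ring
    simp only [mul_one]
    calc _ = s0 ^ (-p) * (α s0 + β s0 * (s0 * (s0 * t0))) := by ring
      _ = _ := by rw [h1, h2]

end Pool.Agent.W800.HM
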