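import Pool.Agent.W707.HM.Stm

/-! Project HM: the differential equation. -/

set_option autoImplicit false

namespace Pool.Agent.W800.HM

open MeasureTheory Set Filter Topology
open Pool.Agent.W707.HM

theorem ode : S_ODE := by
  intro a b K D hab hD hb
  have hK : 0 < K := by
    have h := hb a ⟨le_refl a, hab⟩
    have h1 : 0 < K * (b - a) := lt_of_lt_of_le h.1 h.2
    by_contra hK
    have := mul_nonpos_of_nonpos_of_nonneg (not_lt.1 hK) (sub_pos.2 hab).le
    linarith
  have hmx : ∀ x, x < b → max x a ∈ Ico a b := fun x hx => ⟨le_max_right _ _, max_lt hx hab⟩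
  set F : ℝ → ℝ := fun x => (D (max x a))⁻¹ with hF
  have hFpos : ∀ x, x < b → 0 < F x := fun x hx => inv_pos.2 (hb _ (hmx x hx)).1
  have hFc : ContinuousOn F (Iio b) := by
    apply ContinuousOn.inv₀
    · exact hD.comp (by fun_prop) (fun x hx => hmx x hx)
    · intro x hx
      exact (hb _ (hmx x hx)).1.ne'
  set I : ℝ → ℝ := fun m => ∫ x in a..m, F x with hIdef
  have hI : ∀ m, m < b → HasDerivAt I (F m) m := by
    intro m hm
    apply intervalIntegral.integral_hasDerivAt_right
    · apply ContinuousOn.intervalIntegrable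
      apply hFc.mono
      intro x hx
      exact lt_of_le_of_lt hx.2 (max_lt hab hm)
    · exact hFc.stronglyMeasurableAtFilter isOpen_Iio m hm
    · exact hFc.continuousAt (Iio_mem_nhds hm)
  have hIc : ContinuousOn I (Iio b) := fun x hx => (hI x hx).continuousAt.continuousWithinAt
  have hmono : StrictMonoOn I (Iio b) := by
    apply strictMonoOn_of_deriv_pos (convex_Iio b) hIc
    intro x hx
    rw [interior_Iio] at hx
    rw [(hI x hx).deriv]
    exact hFpos x hx
  have hI0 : I a = 0 := intervalIntegral.integral_same
  have hlow : ∀ m, a ≤ m → m < b → (Real.log (b - a) - Real.log (b - m)) / K ≤ I m := by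
    intro m ham hmb
    have hG : MonotoneOn (fun x => I x + Real.log (b - x) / K) (Ico a b) := by
      have hder : ∀ x ∈ Ico a b, HasDerivAt (fun x => I x + Real.log (b - x) / K)
          (F x + ((-1) / (b - x)) / K) x := by
        intro x hx
        have h1 : HasDerivAt (fun x => b - x) (-1) x := by
          simpa using (hasDerivAt_id x).const_sub b
        exact (hI x hx.2).add ((h1.log (sub_pos.2 hx.2).ne').div_const K)
      apply monotoneOn_of_deriv_nonneg (convex_Ico a b)
      · exact fun x hx => (hder x hx).continuousAt.continuousWithinAt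
      · intro x hx
        exact (hder x (interior_subset hx)).differentiableAt.differentiableWithinAt
      · intro x hx
        have hx' := interior_subset hx
        rw [(hder x hx').deriv]
        have h2 := hb x hx'
        have h3 : 0 < b - x := sub_pos.2 hx'.2
        have h4 : F x = (D x)⁻¹ := by
          simp only [hF]
          rw [max_eq_left hx'.1]
        rw [h4]
        have h5 : (K * (b - x))⁻¹ ≤ (D x)⁻¹ := inv_anti₀ h2.1 h2.2
        have h6 : (-1) / (b - x) / K = -(K * (b - x))⁻¹ := by
          field_simp
        rw [h6]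
        linarith
    have h7 := hG ⟨le_refl a, hab⟩ ⟨ham, hmb⟩ ham
    simp only [hI0, zero_add] at h7
    have h8 : (Real.log (b - a) - Real.log (b - m)) / K
        = Real.log (b - a) / K - Real.log (b - m) / K := by ring
    rw [h8]
    linarith
  have hsurj : ∀ y : ℝ, ∃ m, m < b ∧ I m = y := by
    intro y
    rcases le_total 0 y with hy | hy
    · set m := b - (b - a) * Real.exp (-(K * y)) with hm
      have hba : 0 < b - a := sub_pos.2 hab
      have hexp : 0 < Real.exp (-(K * y)) := Real.exp_pos _
      have hexp1 : Real.exp (-(K * y)) ≤ 1 := by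
        apply Real.exp_le_one_iff.2
        have := mul_nonneg hK.le hy
        linarith
      have hmb : m < b := by
        have := mul_pos hba hexp
        linarith
      have ham : a ≤ m := by
        have := mul_le_mul_of_nonneg_left hexp1 hba.le
        linarith
      have h1 := hlow m ham hmb
      have h2 : b - m = (b - a) * Real.exp (-(K * y)) := by rw [hm]; ring
      rw [h2, Real.log_mul hba.ne' hexp.ne', Real.log_exp] at h1
      have h3 : (Real.log (b - a) - (Real.log (b - a) + -(K * y))) / K = y := by
        field_simp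
        ring
      rw [h3] at h1
      have h4 : y ∈ Icc (I a) (I m) := ⟨by rw [hI0]; exact hy, h1⟩
      have h5 := intermediate_value_Icc ham
        (hIc.mono (fun x hx => lt_of_le_of_lt hx.2 hmb))
      obtain ⟨x, hx, hxy⟩ := h5 h4
      exact ⟨x, lt_of_le_of_lt hx.2 hmb, hxy⟩
    · have hDa := (hb a ⟨le_refl a, hab⟩).1
      have hma : a + y * D a ≤ a := by
        have := mul_nonpos_of_nonpos_of_nonneg hy hDa.le
        linarith
      refine ⟨a + y * D a, lt_of_le_of_lt hma hab, ?_⟩
      have h1 : I (a + y * D a) = ∫ x in a..(a + y * D a), (D a)⁻¹ := by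
        apply intervalIntegral.integral_congr
        intro x hx
        rw [uIcc_of_ge hma] at hx
        simp only [hF]
        rw [max_eq_right hx.2]
      rw [h1, intervalIntegral.integral_const, smul_eq_mul]
      field_simp
      ring
  choose J hJb hJ using hsurj
  set mu : ℝ → ℝ := fun s => J (Real.log s) with hmu
  have hmub : ∀ s, mu s < b := fun s => hJb _
  have hImu : ∀ s, I (mu s) = Real.log s := fun s => hJ _
  have hmumono : MonotoneOn mu (Ioi 0) := by
    intro s hs t ht hst
    rw [← hmono.le_iff_le (hmub s) (hmub t), hImu, hImu]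
    exact Real.log_le_log hs hst
  have hinj := hmono.injOn
  have hmu1 : mu 1 = a := by
    apply hinj (hmub 1) (show a ∈ Iio b from hab)
    rw [hImu, hI0, Real.log_one]
  have hmuS : ∀ m, m < b → mu (Real.exp (I m)) = m := by
    intro m hm
    apply hinj (hmub _) hm
    rw [hImu, Real.log_exp]
  have hmuge : ∀ s, 1 ≤ s → a ≤ mu s := by
    intro s hs
    rw [← hmu1]
    exact hmumono (show (1 : ℝ) ∈ Ioi 0 from mem_Ioi.2 one_pos)
      (mem_Ioi.2 (lt_of_lt_of_le one_pos hs)) hs
  have hmuc : ∀ s, 0 < s → ContinuousAt mu s := by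
    intro s hs
    apply continuousAt_of_monotoneOn_of_image_mem_nhds hmumono (Ioi_mem_nhds hs)
    apply mem_of_superset (Iio_mem_nhds (hmub s))
    intro m hm
    exact ⟨Real.exp (I m), Real.exp_pos _, hmuS m hm⟩
  refine ⟨mu, hmu1, ?_, ?_⟩
  · intro s hs
    refine ⟨⟨hmuge s hs, hmub s⟩, ?_⟩
    have hs0 : 0 < s := lt_of_lt_of_le one_pos hs
    have h1 : HasDerivAt (fun m => Real.exp (I m)) (Real.exp (I (mu s)) * F (mu s)) (mu s) :=
      (hI _ (hmub s)).exp
    have h2 : Real.exp (I (mu s)) = s := by rw [hImu, Real.exp_log hs0]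
    rw [h2] at h1
    have h3 : s * F (mu s) ≠ 0 := (mul_pos hs0 (hFpos _ (hmub s))).ne'
    have h4 := HasDerivAt.of_local_left_inverse (hmuc s hs0) h1 h3 (by
      filter_upwards [Ioi_mem_nhds hs0] with y hy
      rw [hImu, Real.exp_log hy])
    have h5 : (s * F (mu s))⁻¹ = D (mu s) / s := by
      simp only [hF]
      rw [max_eq_left (hmuge s hs), mul_inv, inv_inv]
      ring
    rw [h5] at h4
    exact h4.hasDerivWithinAt
  · intro m hm
    refine ⟨Real.exp (I m), ?_, hmuS m hm.2⟩
    apply Real.one_le_exp
    rw [← hI0]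
    exact hmono.monotoneOn (show a ∈ Iio b from hab) hm.2 hm.1

end Pool.Agent.W800.HM
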